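import Pool.Agent.H10.SYA.EXD
import Pool.Agent.H36.SYA.CHR

/-!
# Existence of charts
-/

set_option autoImplicit false

namespace Pool.Agent.H10.SYA

open MvPolynomial Pool.Agent.H2.ST Pool.Agent.H15.TG Pool.Agent.H19.SYA

theorem int_const {k L : Type} [Field k] [IsAlgClosed k] [Field L] [Algebra k L] {x : L}
    (hx : IsIntegral k x) : ∃ c : k, x = algebraMap k L c := by
  have h2 := IsAlgClosed.degree_eq_one_of_irreducible k (minpoly.irreducible hx)
  obtain ⟨c, hc⟩ := minpoly.mem_range_of_degree_eq_one k x h2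
  exact ⟨c, hc.symm⟩

section

variable {k : Type} [Field k] {L : Type} [Field L] [Algebra k L]

/-- killed fractions of weight `n` -/
def KF (W : ℤ → Submodule k (Pol k 2)) (g f : Pol k 2) (β : ℤ) (Θ : Pol k 2 →ₐ[k] L) (n : ℤ)
    (x : L) : Prop :=
  ∃ (i : ℕ) (U : Pol k 2), U ∈ W (n + i * β) ∧ g ∣ br g U ∧ g ∣ br f U ∧ ¬ g ∣ U ∧
    x * Θ f ^ i = Θ U

theorem dvd_br_mul {g a U V : Pol k 2} (h1 : g ∣ br a U) (h2 : g ∣ br a V) :
    g ∣ br a (U * V) := by
  rw [br_mul]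
  exact dvd_add (Dvd.dvd.mul_left h2 _) (Dvd.dvd.mul_left h1 _)

theorem dvd_br_pow {g a U : Pol k 2} (h1 : g ∣ br a U) (j : ℕ) : g ∣ br a (U ^ j) := by
  rw [br_pow]
  exact Dvd.dvd.mul_left h1 _

theorem dvd_br_C {g a : Pol k 2} (c : k) : g ∣ br a (C c) := by
  rw [br_C]
  exact dvd_zero _

variable {W : ℤ → Submodule k (Pol k 2)} {g f : Pol k 2} {α β : ℤ} {Θ : Pol k 2 →ₐ[k] L}

theorem kf_ne (hΘ : ∀ F, Θ F = 0 ↔ g ∣ F) {n : ℤ} {x : L}
    (hx : KF W g f β Θ n x) : x ≠ 0 := by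
  obtain ⟨i, U, -, -, -, h1, h2⟩ := hx
  rintro rfl
  rw [zero_mul] at h2
  exact h1 ((hΘ U).1 h2.symm)

theorem tf_ne (hG : Gp W g f α β) (hΘ : ∀ F, Θ F = 0 ↔ g ∣ F) : Θ f ≠ 0 :=
  fun h => hG.nd ((hΘ f).1 h)

theorem kf_mul (hW : Gr W) (hG : Gp W g f α β) {n m : ℤ} {x y : L}
    (hx : KF W g f β Θ n x) (hy : KF W g f β Θ m y) : KF W g f β Θ (n + m) (x * y) := by
  obtain ⟨i, U, hU, a1, a2, a3, a4⟩ := hx
  obtain ⟨j, V, hV, b1, b2, b3, b4⟩ := hy
  refine ⟨i + j, U * V, ?_, dvd_br_mul a1 b1, dvd_br_mul a2 b2, ?_, ?_⟩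
  · have := hW.mul _ _ _ _ hU hV
    have e : n + m + ((i + j : ℕ) : ℤ) * β = n + i * β + (m + j * β) := by push_cast; ring
    rw [e]; exact this
  · intro h
    rcases hG.pg.dvd_or_dvd h with h | h
    · exact a3 h
    · exact b3 h
  · rw [map_mul, ← a4, ← b4, pow_add]; ring

theorem kf_C (hW : Gr W) (hG : Gp W g f α β) {c : k} (hc : c ≠ 0) :
    KF W g f β Θ 0 (algebraMap k L c) := by
  refine ⟨0, C c, ?_, dvd_br_C c, dvd_br_C c, ?_, ?_⟩
  · have e : (0 : ℤ) + ((0 : ℕ) : ℤ) * β = 0 := by simp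
    rw [e]
    exact algebraMap_mem_gr hW c
  · intro h
    exact hG.pg.not_isUnit (isUnit_of_dvd_unit h ((isUnit_iff_ne_zero.2 hc).map C))
  · rw [pow_zero, mul_one]
    exact (Θ.commutes c).symm

theorem kf_inv (hW : Gr W) (hG : Gp W g f α β) (hΘ : ∀ F, Θ F = 0 ↔ g ∣ F)
    (hU : ∀ (n : ℤ) (U : Pol k 2), U ∈ W n → g ∣ br g U → g ∣ br f U → ¬ g ∣ U →
      0 ≤ n ∧ ∃ c : k, c ≠ 0 ∧ g ∣ U ^ β.toNat - C c * f ^ n.toNat) {n : ℤ} {x : L}
    (hx : KF W g f β Θ n x) : KF W g f β Θ (-n) x⁻¹ := by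
  have hx0 := kf_ne hΘ hx
  obtain ⟨i, U, hUW, a1, a2, a3, a4⟩ := hx
  obtain ⟨hn0, c, hc, hd⟩ := hU _ U hUW a1 a2 a3
  have hb : (β.toNat : ℤ) = β := Int.toNat_of_nonneg hG.pb.le
  have hb1 : 1 ≤ β.toNat := by have := hG.pb; omega
  obtain ⟨b, hb2⟩ : ∃ b, β.toNat = b + 1 := ⟨β.toNat - 1, by omega⟩
  set N' := (n + i * β).toNat with hN'
  have hN : (N' : ℤ) = n + i * β := Int.toNat_of_nonneg hn0
  have h1 : Θ U ^ β.toNat = algebraMap k L c * Θ f ^ N' := by
    have h2 := (hΘ _).2 hd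
    rw [map_sub, map_pow, map_mul, map_pow, sub_eq_zero] at h2
    rw [h2]
    congr 1
    exact Θ.commutes c
  have hcL : algebraMap k L c ≠ 0 := by
    rw [Ne, map_eq_zero_iff _ (algebraMap k L).injective]; exact hc
  refine ⟨N', C c⁻¹ * (f ^ i * U ^ b), ?_, dvd_br_mul (dvd_br_C _) (dvd_br_mul ?_
    (dvd_br_pow a1 b)), dvd_br_mul (dvd_br_C _) (dvd_br_mul ?_ (dvd_br_pow a2 b)), ?_, ?_⟩
  · rw [← smul_eq_C_mul]
    refine (W _).smul_mem _ ?_
    have h2 := hW.mul _ _ _ _ (pow_mem_gr hW hG.hf i) (pow_mem_gr hW hUW b)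
    have e : -n + (N' : ℤ) * β = i • β + b • (n + i * β) := by
      rw [hN, nsmul_eq_mul, nsmul_eq_mul]
      have hbb : (b : ℤ) = β - 1 := by
        rw [← hb, hb2]; push_cast; ring
      rw [hbb]; ring
    rw [e]; exact h2
  · refine dvd_br_pow ?_ i
    rw [hG.gf]; exact dvd_zero _
  · refine dvd_br_pow ?_ i
    rw [br_self]; exact dvd_zero _
  · intro h
    rw [← smul_eq_C_mul] at h
    have h2 : g ∣ f ^ i * U ^ b := by
      rw [smul_eq_C_mul] at h
      have h3 := Dvd.dvd.mul_left h (C c)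
      rwa [← mul_assoc, ← C_mul, mul_inv_cancel₀ hc, C_1, one_mul] at h3
    rcases hG.pg.dvd_or_dvd h2 with h | h
    · exact hG.nd (hG.pg.dvd_of_dvd_pow h)
    · exact a3 (hG.pg.dvd_of_dvd_pow h)
  · rw [map_mul, map_mul, map_pow, map_pow]
    have h2 : Θ (C c⁻¹) = (algebraMap k L c)⁻¹ := by
      rw [← map_inv₀]; exact Θ.commutes _
    rw [h2, ← mul_right_inj' hx0, ← mul_right_inj' hcL, ← mul_assoc x, mul_inv_cancel₀ hx0, one_mul,
      ← h1, hb2, pow_succ, ← a4]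
    field_simp

theorem kf_const [IsAlgClosed k] (hG : Gp W g f α β) (hΘ : ∀ F, Θ F = 0 ↔ g ∣ F)
    (hU : ∀ (n : ℤ) (U : Pol k 2), U ∈ W n → g ∣ br g U → g ∣ br f U → ¬ g ∣ U →
      0 ≤ n ∧ ∃ c : k, c ≠ 0 ∧ g ∣ U ^ β.toNat - C c * f ^ n.toNat) {x : L}
    (hx : KF W g f β Θ 0 x) : ∃ c : k, c ≠ 0 ∧ x = algebraMap k L c := by
  have hx0 := kf_ne hΘ hx
  obtain ⟨i, U, hUW, a1, a2, a3, a4⟩ := hx
  obtain ⟨hn0, c, hc, hd⟩ := hU _ U hUW a1 a2 a3
  have hb : (β.toNat : ℤ) = β := Int.toNat_of_nonneg hG.pb.le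
  have hb1 : 1 ≤ β.toNat := by have := hG.pb; omega
  have hN : (0 + (i : ℤ) * β).toNat = i * β.toNat := by
    apply Nat.cast_injective (R := ℤ)
    rw [Int.toNat_of_nonneg hn0]
    push_cast
    rw [Int.toNat_of_nonneg hG.pb.le]
    ring
  rw [hN] at hd
  have h1 : x ^ β.toNat = algebraMap k L c := by
    have h2 := (hΘ _).2 hd
    rw [map_sub, map_pow, map_mul, map_pow, sub_eq_zero, ← a4, mul_pow, ← pow_mul] at h2
    have h3 := mul_right_cancel₀ (pow_ne_zero _ (tf_ne hG hΘ)) h2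
    rw [h3]
    exact Θ.commutes c
  have h4 : IsIntegral k x := by
    refine IsIntegral.of_pow (n := β.toNat) (by omega) ?_
    rw [h1]
    exact isIntegral_algebraMap
  obtain ⟨c', hc'⟩ := int_const h4
  refine ⟨c', ?_, hc'⟩
  rintro rfl
  rw [map_zero] at hc'
  exact hx0 hc'

theorem kf_pow (hW : Gr W) (hG : Gp W g f α β) {n : ℤ} {x : L} (hx : KF W g f β Θ n x) (j : ℕ) :
    KF W g f β Θ (j * n) (x ^ j) := by
  induction j with
  | zero =>
    have := kf_C (Θ := Θ) hW hG (one_ne_zero (α := k))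
    rw [map_one] at this
    simpa using this
  | succ j ih =>
    have := kf_mul hW hG ih hx
    have e : ((j + 1 : ℕ) : ℤ) * n = j * n + n := by push_cast; ring
    rw [e, pow_succ]; exact this

theorem kf_zpow (hW : Gr W) (hG : Gp W g f α β) (hΘ : ∀ F, Θ F = 0 ↔ g ∣ F)
    (hU : ∀ (n : ℤ) (U : Pol k 2), U ∈ W n → g ∣ br g U → g ∣ br f U → ¬ g ∣ U →
      0 ≤ n ∧ ∃ c : k, c ≠ 0 ∧ g ∣ U ^ β.toNat - C c * f ^ n.toNat) {n : ℤ} {x : L}
    (hx : KF W g f β Θ n x) (j : ℤ) : KF W g f β Θ (j * n) (x ^ j) := by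
  obtain ⟨i, rfl | rfl⟩ := Int.eq_nat_or_neg j
  · rw [zpow_natCast]
    exact kf_pow hW hG hx i
  · rw [zpow_neg, zpow_natCast, neg_mul]
    exact kf_inv hW hG hΘ hU (kf_pow hW hG hx i)

theorem kf_gen [IsAlgClosed k] (hW : Gr W) (hG : Gp W g f α β) (hΘ : ∀ F, Θ F = 0 ↔ g ∣ F)
    (hU : ∀ (n : ℤ) (U : Pol k 2), U ∈ W n → g ∣ br g U → g ∣ br f U → ¬ g ∣ U →
      0 ≤ n ∧ ∃ c : k, c ≠ 0 ∧ g ∣ U ^ β.toNat - C c * f ^ n.toNat) :
    ∃ (wr m : ℕ) (ρ : L), 0 < wr ∧ 0 < m ∧ β = m * wr ∧ KF W g f β Θ wr ρ ∧ ρ ^ m = Θ f ∧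
      ∀ (n : ℤ) (x : L), KF W g f β Θ n x →
        ∃ (c : k) (j : ℤ), c ≠ 0 ∧ x = algebraMap k L c * ρ ^ j ∧ n = j * wr := by
  let G : AddSubgroup ℤ :=
    { carrier := {n | ∃ x : L, KF W g f β Θ n x}
      add_mem' := by
        rintro a b ⟨x, hx⟩ ⟨y, hy⟩
        exact ⟨x * y, kf_mul hW hG hx hy⟩
      zero_mem' := ⟨algebraMap k L 1, kf_C hW hG one_ne_zero⟩
      neg_mem' := by
        rintro a ⟨x, hx⟩
        exact ⟨x⁻¹, kf_inv hW hG hΘ hU hx⟩ }
  obtain ⟨a, ha⟩ := Int.subgroup_cyclic G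
  have hmem : ∀ n : ℤ, (∃ x : L, KF W g f β Θ n x) ↔ a ∣ n := by
    intro n
    have h1 : (∃ x : L, KF W g f β Θ n x) ↔ n ∈ G := Iff.rfl
    rw [h1, ha, AddSubgroup.mem_closure_singleton]
    constructor
    · rintro ⟨j, hj⟩
      exact ⟨j, by rw [← hj, smul_eq_mul, mul_comm]⟩
    · rintro ⟨j, hj⟩
      exact ⟨j, by rw [hj, smul_eq_mul, mul_comm]⟩
  have hf : KF W g f β Θ β (Θ f) := by
    refine ⟨0, f, ?_, ?_, ?_, hG.nd, by rw [pow_zero, mul_one]⟩
    · have e : β + ((0 : ℕ) : ℤ) * β = β := by simp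
      rw [e]; exact hG.hf
    · rw [hG.gf]; exact dvd_zero _
    · rw [br_self]; exact dvd_zero _
  have haβ : a ∣ β := (hmem β).1 ⟨_, hf⟩
  have hβ := hG.pb
  have ha0 : a ≠ 0 := by
    rintro rfl
    rw [zero_dvd_iff] at haβ
    omega
  have hwr : 0 < a.natAbs := Int.natAbs_pos.2 ha0
  obtain ⟨ρ0, hρ0⟩ := (hmem a.natAbs).2 (Int.dvd_natAbs.2 dvd_rfl)
  obtain ⟨m', hm'⟩ : (a.natAbs : ℤ) ∣ β := Int.natAbs_dvd.2 haβ
  have hm'0 : 0 < m' := by
    by_contra hcon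
    have : (a.natAbs : ℤ) * m' ≤ 0 := mul_nonpos_of_nonneg_of_nonpos (by positivity) (by omega)
    omega
  obtain ⟨m, rfl⟩ := Int.eq_ofNat_of_zero_le hm'0.le
  have hm : 0 < m := by exact_mod_cast hm'0
  have hβm : β = m * (a.natAbs : ℤ) := by rw [hm', mul_comm]
  have hρ00 := kf_ne hΘ hρ0
  have h1 : KF W g f β Θ 0 (Θ f * (ρ0 ^ m)⁻¹) := by
    have h2 := kf_mul hW hG hf (kf_inv hW hG hΘ hU (kf_pow hW hG hρ0 m))
    rwa [← hβm, add_neg_cancel] at h2
  obtain ⟨c, hc, hcx⟩ := kf_const hG hΘ hU h1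
  obtain ⟨γ, hγ⟩ := IsAlgClosed.exists_pow_nat_eq c hm
  have hγ0 : γ ≠ 0 := by
    rintro rfl
    rw [zero_pow hm.ne'] at hγ
    exact hc hγ.symm
  refine ⟨a.natAbs, m, algebraMap k L γ * ρ0, hwr, hm, hβm, ?_, ?_, ?_⟩
  · have := kf_mul hW hG (kf_C (Θ := Θ) hW hG hγ0) hρ0
    rwa [zero_add] at this
  · rw [mul_pow, ← map_pow, hγ, ← hcx, inv_mul_cancel_right₀ (pow_ne_zero _ hρ00)]
  · have hρ : KF W g f β Θ a.natAbs (algebraMap k L γ * ρ0) := by
      have := kf_mul hW hG (kf_C (Θ := Θ) hW hG hγ0) hρ0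
      rwa [zero_add] at this
    intro n x hx
    obtain ⟨j, hj⟩ : (a.natAbs : ℤ) ∣ n := Int.natAbs_dvd.2 ((hmem n).1 ⟨x, hx⟩)
    have h2 := kf_mul hW hG hx (kf_inv hW hG hΘ hU (kf_zpow hW hG hΘ hU hρ j))
    have e : n + -(j * (a.natAbs : ℤ)) = 0 := by rw [hj]; ring
    rw [e] at h2
    obtain ⟨c', hc', hcx'⟩ := kf_const hG hΘ hU h2
    refine ⟨c', j, hc', ?_, by rw [hj]; ring⟩
    rw [← hcx', inv_mul_cancel_right₀ (zpow_ne_zero _ (kf_ne hΘ hρ))]

end

section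

variable {k : Type} [Field k] {L : Type} [Field L] [Algebra k L]

theorem deg_pderiv (s : Fin 3) (p : MvPolynomial (Fin 3) k) (hp : pderiv s p ≠ 0) :
    (pderiv s p).totalDegree < p.totalDegree := by
  have h1 : 1 ≤ p.totalDegree := by
    by_contra h0
    have h2 : p.totalDegree = 0 := by omega
    rw [totalDegree_eq_zero_iff_eq_C] at h2
    rw [h2, pderiv_C] at hp
    exact hp rfl
  suffices h3 : (pderiv s p).totalDegree ≤ p.totalDegree - 1 by omega
  rw [totalDegree]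
  refine Finset.sup_le fun n hn => ?_
  rw [mem_support_iff, coeff_pderiv] at hn
  have h4 : coeff (n + Finsupp.single s 1) p ≠ 0 := fun h5 => hn (by rw [h5]; simp)
  have h6 := le_totalDegree (mem_support_iff.2 h4)
  rw [Finsupp.sum_add_index' (fun _ => rfl) (fun _ _ _ => rfl), Finsupp.sum_single_index rfl] at h6
  omega

theorem aeval_only {R : Type} [CommRing R] [Algebra k R] (P : MvPolynomial (Fin 3) k)
    (hP : ∀ d : Fin 3 →₀ ℕ, coeff d P ≠ 0 → d 1 = 0 ∧ d 2 = 0) (v v' : Fin 3 → R)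
    (h0 : v 0 = v' 0) : aeval v P = aeval v' P := by
  rw [aeval_def, aeval_def, eval₂_eq', eval₂_eq']
  refine Finset.sum_congr rfl fun d hd => ?_
  obtain ⟨h1, h2⟩ := hP d (mem_support_iff.1 hd)
  rw [Fin.prod_univ_three, Fin.prod_univ_three, h1, h2, h0, pow_zero, pow_zero, pow_zero, pow_zero]

theorem ind_of [IsAlgClosed k] [CharZero k] (v : Fin 3 → L) (E1 E2 : Derivation k L L) (c : L) (hc : c ≠ 0)
    (h1 : ∀ P : MvPolynomial (Fin 3) k, E1 (aeval v P) = aeval v (pderiv 2 P))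
    (h2 : ∀ P : MvPolynomial (Fin 3) k, E2 (aeval v P) = aeval v (pderiv 1 P) * c)
    (hρ : ¬ ∃ a : k, v 0 = algebraMap k L a) : AlgebraicIndependent k v := by
  rw [algebraicIndependent_iff]
  have key : ∀ (n : ℕ) (P : MvPolynomial (Fin 3) k), P.totalDegree < n → aeval v P = 0 →
      P = 0 := by
    intro n
    induction n with
    | zero => intro P hP; exact absurd hP (Nat.not_lt_zero _)
    | succ n ih =>
      intro P hP h0
      have a1 : pderiv 2 P = 0 := by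
        by_contra hne
        exact hne (ih _ (by have := deg_pderiv 2 P hne; omega)
          (by rw [← h1, h0, Derivation.map_zero]))
      have a2 : pderiv 1 P = 0 := by
        by_contra hne
        refine hne (ih _ (by have := deg_pderiv 1 P hne; omega) ?_)
        have := h2 P
        rw [h0, Derivation.map_zero] at this
        rcases mul_eq_zero.1 this.symm with h3 | h3
        · exact h3
        · exact absurd h3 hc
      have hP' : ∀ d : Fin 3 →₀ ℕ, coeff d P ≠ 0 → d 1 = 0 ∧ d 2 = 0 := fun d hd =>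
        ⟨Pool.Agent.H36.SYA.pderiv_zero 1 P a2 d hd, Pool.Agent.H36.SYA.pderiv_zero 2 P a1 d hd⟩
      let q : Polynomial k := aeval (fun _ : Fin 3 => (Polynomial.X : Polynomial k)) P
      have hq1 : Polynomial.aeval (v 0) q = 0 := by
        have e1 : Polynomial.aeval (v 0) q = aeval (fun _ : Fin 3 => v 0) P := by
          show ((Polynomial.aeval (v 0) : Polynomial k →ₐ[k] L).comp
            (aeval (fun _ : Fin 3 => (Polynomial.X : Polynomial k)))) P = _
          congr 1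
          apply MvPolynomial.algHom_ext
          intro i
          simp
        rw [e1, ← h0]
        exact aeval_only P hP' _ _ rfl
      have hq0 : q = 0 := by
        by_contra hne
        apply hρ
        have h3 : IsAlgebraic k (v 0) := ⟨q, hne, hq1⟩
        exact int_const h3.isIntegral
      have e2 : Polynomial.aeval (X 0 : MvPolynomial (Fin 3) k) q =
          aeval (fun _ : Fin 3 => (X 0 : MvPolynomial (Fin 3) k)) P := by
        show ((Polynomial.aeval (X 0 : MvPolynomial (Fin 3) k)).comp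
          (aeval (fun _ : Fin 3 => (Polynomial.X : Polynomial k)))) P = _
        congr 1
        apply MvPolynomial.algHom_ext
        intro i
        simp
      rw [hq0, map_zero] at e2
      have e3 : aeval (fun _ : Fin 3 => (X 0 : MvPolynomial (Fin 3) k)) P =
          aeval (X : Fin 3 → MvPolynomial (Fin 3) k) P := aeval_only P hP' _ _ rfl
      rw [aeval_X_left_apply] at e3
      rw [← e3, ← e2]
  intro P hP
  exact key _ P (Nat.lt_succ_self _) hP

end

theorem pf_CHT (hCHZ : T_CHZ) (hCHU : T_CHU) (hCHG : T_CHG) : T_CHT := by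
  intro k _ _ _ W H y w g f α β hy hG
  have hW := hy.toGr
  obtain ⟨L, iL, iA, Θ, hΘ, hfr⟩ := exists_res hG.pg
  refine ⟨L, iL, iA, Θ, ?_⟩
  have hU := hCHU k W H y w g f α β hy hG
  obtain ⟨wr, m, ρ, hwr, hm, hβ, hρ, hρf, hρg⟩ := kf_gen (Θ := Θ) hW hG hΘ hU
  obtain ⟨z, r, hz, hfz, hngz, hggz⟩ := hCHZ k W H y w g f α β hy hG
  set r' : Pol k 2 := br g z with hr'
  have hr'W : r' ∈ W (α + r) := hy.pbr _ _ _ _ hG.hg hz
  have hfr' : g ∣ br f r' := by
    rw [hr', jac, br_anti f g, hG.gf, neg_zero, zero_br, zero_add]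
    obtain ⟨a, ha⟩ := hfz
    rw [ha, br_mul, br_self, mul_zero, add_zero]
    exact dvd_mul_right _ _
  have hr'K : KF W g f β Θ (α + r) (Θ r') := by
    refine ⟨0, r', ?_, hggz, hfr', hngz, by rw [pow_zero, mul_one]⟩
    have e : α + r + ((0 : ℕ) : ℤ) * β = α + r := by simp
    rw [e]; exact hr'W
  have hr'0 : Θ r' ≠ 0 := kf_ne hΘ hr'K
  have hρ0 : ρ ≠ 0 := kf_ne hΘ hρ
  have hf0 : Θ f ≠ 0 := tf_ne hG hΘ
  have hβk : (β : k) ≠ 0 := by exact_mod_cast hG.pb.ne'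
  obtain ⟨c1, j1, hc1, hr1, hj1⟩ := hρg _ _ hr'K
  set ζ : L := Θ z / Θ r' with hζ
  obtain ⟨Eg, hEg⟩ := exists_der Θ hfr (ad g) (by
    intro F hF
    rw [hΘ] at hF ⊢
    obtain ⟨a, rfl⟩ := hF
    rw [ad_apply, br_mul, br_self, mul_zero, add_zero]
    exact dvd_mul_right _ _)
  obtain ⟨Ef, hEf⟩ := exists_der Θ hfr (ad f) (by
    intro F hF
    rw [hΘ] at hF ⊢
    obtain ⟨a, rfl⟩ := hF
    rw [ad_apply, br_mul, br_anti f g, hG.gf, neg_zero, mul_zero, add_zero]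
    exact dvd_mul_right _ _)
  have hEρ : ∀ E : Derivation k L L, E (Θ f) = 0 → E ρ = 0 := by
    intro E hE
    rw [← hρf, Derivation.leibniz_pow] at hE
    have hmL : (m : L) ≠ 0 := by
      have : (m : L) = algebraMap k L (m : k) := (map_natCast _ _).symm
      rw [this, Ne, map_eq_zero_iff _ (algebraMap k L).injective]
      exact_mod_cast hm.ne'
    rw [smul_eq_mul, nsmul_eq_mul] at hE
    rcases mul_eq_zero.1 hE with h | h
    · exact absurd h hmL
    · rcases mul_eq_zero.1 h with h | h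
      · exact absurd h (pow_ne_zero _ hρ0)
      · exact h
  have hgρ : Eg ρ = 0 := hEρ Eg (by rw [hEg, ad_apply, hG.gf, map_zero])
  have hfρ : Ef ρ = 0 := hEρ Ef (by rw [hEf, ad_apply, br_self, map_zero])
  have hgH : Eg (Θ H) = 0 := by
    rw [hEg, ad_apply, hy.HE α g hG.hg, map_smul, (hΘ g).2 dvd_rfl, smul_zero]
  have hfH : Ef (Θ H) = algebraMap k L (β : k) * Θ f := by
    rw [hEf, ad_apply, hy.HE β f hG.hf, map_smul, Algebra.smul_def]
  have hgr : Eg (Θ r') = 0 := by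
    rw [hEg, ad_apply]
    exact (hΘ _).2 hggz
  have hfr2 : Ef (Θ r') = 0 := by
    rw [hEf, ad_apply]
    exact (hΘ _).2 hfr'
  have hgζ : Eg ζ = 1 := by
    rw [hζ, Derivation.leibniz_div_const _ _ _ hgr, hEg, ad_apply, smul_eq_mul]
    exact inv_mul_cancel₀ hr'0
  have hfζ : Ef ζ = 0 := by
    rw [hζ, Derivation.leibniz_div_const _ _ _ hfr2, hEf, ad_apply, (hΘ _).2 hfz, smul_zero]
  set v : Fin 3 → L := ![ρ, Θ H, ζ] with hv
  have hEgv : ∀ P : MvPolynomial (Fin 3) k, Eg (aeval v P) = aeval v (pderiv 2 P) := by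
    intro P
    rw [chain, Fin.sum_univ_three]
    simp only [hv, Matrix.cons_val_zero, Matrix.cons_val_one, Matrix.cons_val]
    rw [hgρ, hgH, hgζ]; ring
  have hEfv : ∀ P : MvPolynomial (Fin 3) k, Ef (aeval v P) = aeval v (pderiv 1 P) * (algebraMap k L (β : k) * Θ f) := by
    intro P
    rw [chain, Fin.sum_univ_three]
    simp only [hv, Matrix.cons_val_zero, Matrix.cons_val_one, Matrix.cons_val]
    rw [hfρ, hfH, hfζ]; ring
  have hcne : algebraMap k L (β : k) * Θ f ≠ 0 := by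
    refine mul_ne_zero ?_ hf0
    rw [Ne, map_eq_zero_iff _ (algebraMap k L).injective]; exact hβk
  have hρnc : ¬ ∃ a : k, v 0 = algebraMap k L a := by
    rintro ⟨a, ha⟩
    have ha' : ρ = algebraMap k L a := ha
    have h1 : Θ (f - C (a ^ m)) = 0 := by
      have h2 : Θ (C (a ^ m)) = algebraMap k L (a ^ m) := Θ.commutes _
      rw [map_sub, h2, ← hρf, ha', map_pow, sub_self]
    rw [hΘ] at h1
    obtain ⟨b, hb⟩ := h1
    apply hG.nd
    have h3 : cmp hW (f - C (a ^ m)) β = f := by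
      have hCm : (C (a ^ m) : Pol k 2) ∈ W 0 := algebraMap_mem_gr hW (a ^ m)
      rw [map_sub, Finsupp.sub_apply, cmp_of_mem hW hG.hf, cmp_of_mem hW hCm,
        Finsupp.single_eq_same, Finsupp.single_eq_of_ne (by have := hG.pb; omega), sub_zero]
    have h4 := cmp_mul_of_mem hW hG.hg b (β - α)
    rw [sub_add_cancel, mul_comm b g, ← hb, h3] at h4
    exact ⟨_, by rw [h4, mul_comm]⟩
  refine ⟨v, wr, m, hG, hwr, hm, hβ, ind_of v Eg Ef _ hcne hEgv hEfv hρnc, hΘ, rfl, hρf.symm,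
    ?_, ?_, ?_, ?_⟩
  · -- img
    intro n F hF
    obtain ⟨N, D, u, hu, hd⟩ := hCHG k W H y w g f z α β r hy hG hz hfz hngz hggz n F hF
    have hcj : ∀ a b : Fin D, ∃ (c : k) (j : ℤ), Θ (u a b) = algebraMap k L c * ρ ^ j ∧
        (c = 0 ∨ n + N * (β + α + r) - (b : ℕ) * r = j * wr) := by
      intro a b
      obtain ⟨h1, h2, h3⟩ := hu a b
      by_cases h4 : g ∣ u a b
      · exact ⟨0, 0, by rw [(hΘ _).2 h4, map_zero, zero_mul], Or.inl rfl⟩
      · have h5 : KF W g f β Θ (n + N * (β + α + r) - (b : ℕ) * r) (Θ (u a b)) := by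
          refine ⟨0, u a b, ?_, h2, h3, h4, by rw [pow_zero, mul_one]⟩
          have e : n + N * (β + α + r) - (b : ℕ) * r + ((0 : ℕ) : ℤ) * β =
            n + N * (β + α + r) - (b : ℕ) * r := by simp
          rw [e]; exact h1
        obtain ⟨c, j, -, hx, hj⟩ := hρg _ _ h5
        exact ⟨c, j, hx, Or.inr hj⟩
    choose c j hcj1 hcj2 using hcj
    let l : Fin D → Fin D → ℤ := fun a b => j a b + j1 * (b : ℕ) - N * m - N * j1
    let N' : ℕ := ∑ a, ∑ b, (l a b).natAbs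
    have hN' : ∀ a b, 0 ≤ l a b + N' := by
      intro a b
      have h1 : (l a b).natAbs ≤ N' := by
        refine le_trans ?_ (Finset.single_le_sum (f := fun a => ∑ b, (l a b).natAbs)
          (fun i _ => Nat.zero_le _) (Finset.mem_univ a))
        exact Finset.single_le_sum (f := fun b => (l a b).natAbs) (fun i _ => Nat.zero_le _)
          (Finset.mem_univ b)
      omega
    let cc : Fin D → Fin D → k := fun a b => c a b * c1 ^ (b : ℕ) * (c1 ^ N)⁻¹
    refine ⟨N', ∑ a, ∑ b, C (cc a b) * X 0 ^ (l a b + N').toNat * X 1 ^ (a : ℕ) *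
      X 2 ^ (b : ℕ), ?_, ?_⟩
    · have h1 := (hΘ _).2 hd
      rw [map_sub, map_mul, map_pow, map_mul, sub_eq_zero, map_sum] at h1
      simp only [map_sum, map_mul, map_pow, hcj1] at h1
      have hc1L : algebraMap k L c1 ≠ 0 := by
        rw [Ne, map_eq_zero_iff _ (algebraMap k L).injective]; exact hc1
      have hzr : Θ z = ζ * Θ r' := by rw [hζ, div_mul_cancel₀ _ hr'0]
      have hne : (Θ f * Θ r') ^ N ≠ 0 := pow_ne_zero _ (mul_ne_zero hf0 hr'0)
      rw [← mul_right_inj' hne, ← mul_assoc, h1, map_sum, Finset.mul_sum, Finset.sum_mul]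
      refine Finset.sum_congr rfl fun a _ => ?_
      rw [map_sum, Finset.mul_sum, Finset.sum_mul]
      refine Finset.sum_congr rfl fun b _ => ?_
      simp only [map_mul, map_pow, algHom_C, aeval_X, hv, Matrix.cons_val_zero,
        Matrix.cons_val_one, Matrix.cons_val]
      have e1 : ρ ^ (l a b + N').toNat = ρ ^ (l a b) * ρ ^ N' := by
        rw [← zpow_natCast, Int.toNat_of_nonneg (hN' a b), zpow_add₀ hρ0, zpow_natCast]
      have e2 : ρ ^ (l a b) * (Θ f ^ N * (ρ ^ j1) ^ N) = ρ ^ j a b * (ρ ^ j1) ^ (b : ℕ) := by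
        rw [← hρf, ← pow_mul, ← zpow_natCast ρ (m * N), ← zpow_natCast (ρ ^ j1) N,
          ← zpow_natCast (ρ ^ j1) (b : ℕ), ← zpow_mul, ← zpow_mul, ← zpow_add₀ hρ0,
          ← zpow_add₀ hρ0, ← zpow_add₀ hρ0]
        congr 1
        simp only [l]
        push_cast
        ring
      rw [hzr, hr1, e1]
      have e3 : algebraMap k L (cc a b) * algebraMap k L c1 ^ N =
          algebraMap k L (c a b) * algebraMap k L c1 ^ (b : ℕ) := by
        simp only [cc]
        rw [← map_pow, ← map_pow, ← map_mul, ← map_mul, mul_assoc, mul_assoc,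
          inv_mul_cancel₀ (pow_ne_zero _ hc1), mul_one]
      calc algebraMap k L (c a b) * ρ ^ j a b * Θ H ^ (a : ℕ) *
            (ζ * (algebraMap k L c1 * ρ ^ j1)) ^ (b : ℕ) * ρ ^ N'
          = (algebraMap k L (c a b) * algebraMap k L c1 ^ (b : ℕ)) *
              (ρ ^ j a b * (ρ ^ j1) ^ (b : ℕ)) * Θ H ^ (a : ℕ) * ζ ^ (b : ℕ) * ρ ^ N' := by ring
        _ = (algebraMap k L (cc a b) * algebraMap k L c1 ^ N) *
              (ρ ^ (l a b) * (Θ f ^ N * (ρ ^ j1) ^ N)) * Θ H ^ (a : ℕ) * ζ ^ (b : ℕ) *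
              ρ ^ N' := by rw [e2, e3]
        _ = _ := by ring
    · rw [← mem_weightedHomogeneousSubmodule]
      refine Submodule.sum_mem _ fun a _ => Submodule.sum_mem _ fun b _ => ?_
      rw [mem_weightedHomogeneousSubmodule]
      rcases hcj2 a b with h0 | hj
      · have : cc a b = 0 := by simp only [cc]; rw [h0, zero_mul, zero_mul]
        rw [this, C_0, zero_mul, zero_mul, zero_mul]
        exact isWeightedHomogeneous_zero _ _ _
      · have h1 := (((isWeightedHomogeneous_C (![(wr : ℤ), 0, -α]) (cc a b)).mul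
          ((isWeightedHomogeneous_X k (![(wr : ℤ), 0, -α]) 0).pow (l a b + N').toNat)).mul
          ((isWeightedHomogeneous_X k (![(wr : ℤ), 0, -α]) 1).pow (a : ℕ))).mul
          ((isWeightedHomogeneous_X k (![(wr : ℤ), 0, -α]) 2).pow (b : ℕ))
        convert h1 using 1
        simp only [Matrix.cons_val_zero, Matrix.cons_val_one, Matrix.cons_val, nsmul_eq_mul,
          zero_add, mul_zero, add_zero]
        rw [Int.toNat_of_nonneg (hN' a b)]
        simp only [l]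
        rw [hβ] at hj
        linear_combination hj + ((b : ℕ) - N : ℤ) * hj1
  · -- dg
    intro F N P hP
    have h1 := congrArg Eg hP
    have h2 : Eg (v 0) = 0 := hgρ
    rw [hEgv, Derivation.leibniz, Derivation.leibniz_pow, h2, smul_zero, smul_zero, smul_zero,
      zero_add, smul_eq_mul, hEg, ad_apply] at h1
    rw [← h1]; ring
  · -- df
    intro F N P hP
    have h1 := congrArg Ef hP
    have h2 : Ef (v 0) = 0 := hfρ
    rw [hEfv, Derivation.leibniz, Derivation.leibniz_pow, h2, smul_zero, smul_zero, smul_zero,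
      zero_add, smul_eq_mul, hEf, ad_apply] at h1
    have h3 : v 0 ^ m = Θ f := hρf
    rw [h3]
    linear_combination h1
  · -- inv
    intro i
    fin_cases i
    · obtain ⟨i, U, hUW, -, -, -, hU2⟩ := hρ
      exact ⟨i, _, U, hUW, hU2⟩
    · refine ⟨0, 0, H, hy.H0, ?_⟩
      rw [pow_zero, mul_one]
      rfl
    · obtain ⟨i, U, hUW, -, -, -, hU2⟩ := kf_inv hW hG hΘ hU hr'K
      refine ⟨i, _, z * U, hW.mul _ _ _ _ hz hUW, ?_⟩
      rw [map_mul, ← hU2]
      show ζ * Θ f ^ i = _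
      rw [hζ, div_eq_mul_inv]; ring

end Pool.Agent.H10.SYA
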