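import Pool.Agent.H41.SYA.ND

/-!
# The primes of the maximal commutative subalgebra
-/

set_option autoImplicit false

namespace Pool.Agent.H10.SYA

open MvPolynomial Pool.Agent.H2.ST Pool.Agent.H15.TG Pool.Agent.H19.SYA

variable {k : Type} [Field k]

/-- the data of `T_ELL` at a homogeneous prime `h` of weight `r` -/
structure ED (W : ℤ → Submodule k (Pol k 2)) (K : Subalgebra k (Pol k 2)) (l : ℕ) (h : Pol k 2)
    (e : ℕ) (r : ℤ) : Prop where
  pr : Prime h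
  hK : h ∈ K
  hW : h ∈ W r
  ep : 0 < e
  er : (e : ℤ) * r = l
  co : IsCoprime (e : ℤ) r
  dv : ∀ (n : ℤ) (u : Pol k 2), u ∈ K → u ∈ W n → ¬ h ∣ u → (e : ℤ) ∣ n

theorem prime_NC {h : Pol k 2} (hp : Prime h) : NC h := by
  rintro ⟨c, hc⟩
  by_cases h0 : c = 0
  · exact hp.ne_zero (by rw [hc, h0, C_0])
  · exact hp.not_isUnit (by rw [hc]; exact (isUnit_iff_ne_zero.2 h0).map C)

theorem C_mem {W : ℤ → Submodule k (Pol k 2)} (hW : Gr W) (c : k) : (C c : Pol k 2) ∈ W 0 :=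
  algebraMap_mem_gr hW c

theorem C_memK (K : Subalgebra k (Pol k 2)) (c : k) : (C c : Pol k 2) ∈ K :=
  K.algebraMap_mem c

theorem prime_dvd_prime {g h : Pol k 2} (hg : Prime g) (hh : Prime h) (hd : g ∣ h) :
    ∃ c : k, c ≠ 0 ∧ h = C c * g := by
  obtain ⟨u, hu⟩ := hg.associated_of_dvd hh hd
  obtain ⟨c, hc, hc'⟩ := Pool.Agent.H41.SYA.nd_unit u
  exact ⟨c, hc, by rw [← hu, hc', mul_comm]⟩

theorem wt_eq_of_dvd {W : ℤ → Submodule k (Pol k 2)} (hW : Gr W) {g h : Pol k 2} (hg : Prime g)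
    (hh : Prime h) (hd : g ∣ h) {r s : ℤ} (hgr : g ∈ W r) (hhs : h ∈ W s) : r = s := by
  obtain ⟨c, hc, hc'⟩ := prime_dvd_prime hg hh hd
  have h1 : h ∈ W r := by
    rw [hc', ← smul_eq_C_mul]
    exact (W r).smul_mem _ hgr
  exact wt_uniq hW h1 hhs hh.ne_zero

theorem ed_pos {W : ℤ → Submodule k (Pol k 2)} {K : Subalgebra k (Pol k 2)} (hC : CC W K)
    {l : ℕ} {h : Pol k 2} {e : ℕ} {r : ℤ} (hh : ED W K l h e r) : 0 < r :=
  hC.ps r h hh.hK hh.hW (prime_NC hh.pr)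

theorem ed_cop {W : ℤ → Submodule k (Pol k 2)} {K : Subalgebra k (Pol k 2)}
    {l : ℕ} {g h : Pol k 2} {e e' : ℕ} {r r' : ℤ} (hg : ED W K l g e r) (hh : ED W K l h e' r')
    (hn : ¬ g ∣ h) : Nat.Coprime e e' := by
  have h1 := hg.dv r' h hh.hK hh.hW hn
  have h2 : IsCoprime (e' : ℤ) (e : ℤ) := IsCoprime.of_isCoprime_of_dvd_right hh.co h1
  exact (Nat.isCoprime_iff_coprime.1 h2).symm

theorem pow_mem_l {W : ℤ → Submodule k (Pol k 2)} {K : Subalgebra k (Pol k 2)} (hW : Gr W)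
    {l : ℕ} {h : Pol k 2} {e : ℕ} {r : ℤ} (hh : ED W K l h e r) : h ^ e ∈ W l := by
  have h1 := pow_mem_gr hW hh.hW e
  rwa [nsmul_eq_mul, hh.er] at h1

theorem ed_span (hCLI : T_CLI) (hFAC : T_FAC) [IsAlgClosed k] [CharZero k]
    {W : ℤ → Submodule k (Pol k 2)} {H : Pol k 2} {y : Fin 2 ⊕ Fin 2 → Pol k 2} {w : Fin 2 → ℤ}
    {K : Subalgebra k (Pol k 2)} (hy : Hy W H y w) (hC : CC W K) {l : ℕ} {g h : Pol k 2}
    {e e' : ℕ} {r r' : ℤ} (hg : ED W K l g e r) (hh : ED W K l h e' r') (hn : ¬ g ∣ h)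
    {u : Pol k 2} (hu : u ∈ K) (huW : u ∈ W l) :
    ∃ a b : k, u = C a * g ^ e + C b * h ^ e' := by
  have hW := hy.toGr
  have hhl : h ^ e' ∈ W l := pow_mem_l hW hh
  obtain ⟨b, hb⟩ := hCLI k W H y w K hy hC r l g (h ^ e') u hg.pr hg.hK hg.hW
    (K.pow_mem hh.hK _) hu hhl huW (fun hd => hn (hg.pr.dvd_of_dvd_pow hd))
  set z : Pol k 2 := u - C b * h ^ e' with hz
  by_cases hz0 : z = 0
  · refine ⟨0, b, ?_⟩
    rw [C_0, zero_mul, zero_add]
    exact sub_eq_zero.1 hz0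
  have hzK : z ∈ K := K.sub_mem hu (K.mul_mem (C_memK K b) (K.pow_mem hh.hK _))
  have hzW : z ∈ W l := by
    refine (W l).sub_mem huW ?_
    rw [← smul_eq_C_mul]
    exact (W l).smul_mem _ hhl
  have hcof : ∀ (i : ℕ) (v : Pol k 2), z = g ^ i * v → v ∈ K ∧ v ∈ W (l - i * r) := by
    intro i v hv
    have hne : g ^ i * v ≠ 0 := by rw [← hv]; exact hz0
    obtain ⟨-, hvK⟩ := hC.fc (g ^ i) v hne (by rw [← hv]; exact hzK)
    obtain ⟨b', c', hb', hc', hbc⟩ := hFAC k (Pol k 2) ℤ W hW l (g ^ i) v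
      (by rw [← hv]; exact hzW) hne
    have h1 := pow_mem_gr hW hg.hW i
    rw [nsmul_eq_mul] at h1
    have h2 := wt_uniq hW hb' h1 (pow_ne_zero _ hg.pr.ne_zero)
    refine ⟨hvK, ?_⟩
    have h3 : c' = l - i * r := by rw [← h2]; linarith
    rw [← h3]; exact hc'
  have hdv : ∀ i : ℕ, 1 ≤ i → i ≤ e → g ^ i ∣ z := by
    intro i hi
    induction i, hi using Nat.le_induction with
    | base => intro _; rw [pow_one]; exact hb
    | succ i hi ih =>
      intro hie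
      obtain ⟨v, hv⟩ := ih (by omega)
      obtain ⟨hvK, hvW⟩ := hcof i v hv
      have hgv : g ∣ v := by
        by_contra hcon
        have h1 := hg.dv _ v hvK hvW hcon
        have h2 : (e : ℤ) ∣ ((e : ℤ) - i) * r := by
          have : ((e : ℤ) - i) * r = l - i * r := by rw [← hg.er]; ring
          rw [this]; exact h1
        have h3 := hg.co.dvd_of_dvd_mul_right h2
        have h4 := Int.le_of_dvd (by omega) h3
        omega
      obtain ⟨v', hv'⟩ := hgv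
      exact ⟨v', by rw [hv, hv']; ring⟩
  obtain ⟨v, hv⟩ := hdv e hg.ep le_rfl
  obtain ⟨hvK, hvW⟩ := hcof e v hv
  rw [hg.er, sub_self] at hvW
  have h5 : ¬ NC v := fun hNC => absurd (hC.ps 0 v hvK hvW hNC) (lt_irrefl _)
  unfold NC at h5
  rw [not_not] at h5
  obtain ⟨a, ha⟩ := h5
  refine ⟨a, b, ?_⟩
  rw [← ha]
  have h6 : u = z + C b * h ^ e' := by rw [hz]; ring
  rw [h6, hv]; ring

/-- induction over products of homogeneous primes -/
theorem hind (hFAC : T_FAC) {W : ℤ → Submodule k (Pol k 2)} {K : Subalgebra k (Pol k 2)}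
    (hW : Gr W) (hfc : ∀ a b : Pol k 2, a * b ≠ 0 → a * b ∈ K → a ∈ K ∧ b ∈ K)
    (P : Pol k 2 → ℤ → Prop) (h0 : ∀ c : k, c ≠ 0 → P (C c) 0)
    (h1 : ∀ (p a : Pol k 2) (b c : ℤ), Prime p → p ∈ K → p ∈ W b → P a c → P (p * a) (b + c)) :
    ∀ a : Pol k 2, a ≠ 0 → a ∈ K → ∀ n, a ∈ W n → P a n := by
  intro a
  induction a using UniqueFactorizationMonoid.induction_on_prime with
  | h₁ => intro h0; exact absurd rfl h0
  | h₂ x hx =>
    intro hne _ n hn
    obtain ⟨c, hc, rfl⟩ := MvPolynomial.isUnit_iff_eq_C_of_isReduced.1 hx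
    have h2 := wt_uniq hW hn (C_mem hW c) hne
    rw [h2]
    exact h0 c hc.ne_zero
  | h₃ a p ha hp ih =>
    intro hne hK n hn
    obtain ⟨hpK, haK⟩ := hfc p a hne hK
    obtain ⟨b, c, hb, hc, hbc⟩ := hFAC k (Pol k 2) ℤ W hW n p a hn hne
    rw [← hbc]
    exact h1 p a b c hp hpK hb (ih ha haK c hc)

/-- a family of primes -/
structure Fm (W : ℤ → Submodule k (Pol k 2)) (K : Subalgebra k (Pol k 2)) (l n : ℕ)
    (g : Fin (n + 2) → Pol k 2) (e : Fin (n + 2) → ℕ) (r : Fin (n + 2) → ℤ) : Prop where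
  ed : ∀ i, ED W K l (g i) (e i) (r i)
  na : ∀ i j, i ≠ j → ¬ g i ∣ g j
  sp : ∀ (h : Pol k 2) (e' : ℕ) (r' : ℤ), ED W K l h e' r' → 2 ≤ e' → ∃ i, g i ∣ h
  al : n = 0 ∨ ∀ i, 2 ≤ e i

theorem exists_prime (hFAC : T_FAC) {W : ℤ → Submodule k (Pol k 2)}
    {K : Subalgebra k (Pol k 2)} (hW : Gr W) (hC : CC W K) :
    ∃ (h : Pol k 2) (r : ℤ), Prime h ∧ h ∈ K ∧ h ∈ W r := by
  obtain ⟨p, q, α, β, hpK, hqK, hc⟩ := hC.ex
  have hp0 : p ≠ 0 := by
    have := hc.ai.ne_zero 0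
    simpa using this
  have hnu : ¬ IsUnit p := by
    intro hu
    obtain ⟨c, hc', rfl⟩ := MvPolynomial.isUnit_iff_eq_C_of_isReduced.1 hu
    have := wt_uniq hW hc.hp (C_mem hW c) hp0
    have := hc.pa
    omega
  obtain ⟨h, hi, x, hx⟩ := WfDvdMonoid.exists_irreducible_factor hnu hp0
  have hne : h * x ≠ 0 := by rw [← hx]; exact hp0
  obtain ⟨hhK, -⟩ := hC.fc h x hne (by rw [← hx]; exact hpK)
  obtain ⟨b, c, hb, -, -⟩ := hFAC k (Pol k 2) ℤ W hW α h x (by rw [← hx]; exact hc.hp) hne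
  exact ⟨h, b, hi.prime, hhK, hb⟩

theorem exists_fam (hND : T_ND) (hFAC : T_FAC) [IsAlgClosed k] [CharZero k]
    {W : ℤ → Submodule k (Pol k 2)} {K : Subalgebra k (Pol k 2)} (hW : PGr W) (hC : CC W K)
    {l : ℕ} (hl : ∀ (r : ℤ) (h : Pol k 2), Prime h → h ∈ K → h ∈ W r → ∃ e : ℕ, ED W K l h e r) :
    ∃ (n : ℕ) (g : Fin (n + 2) → Pol k 2) (e : Fin (n + 2) → ℕ) (r : Fin (n + 2) → ℤ),
      Fm W K l n g e r := by
  classical
  by_cases hcase : ∃ (g0 : Pol k 2) (e0 : ℕ) (r0 : ℤ), ED W K l g0 e0 r0 ∧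
      ∀ (h : Pol k 2) (e' : ℕ) (r' : ℤ), ED W K l h e' r' → 2 ≤ e' → g0 ∣ h
  · obtain ⟨g0, e0, r0, h0, hall⟩ := hcase
    obtain ⟨r1, g1, hp1, hK1, hW1, hn1, hn2⟩ := hND k W K hW hC r0 g0 h0.pr h0.hK h0.hW
    obtain ⟨e1, h1⟩ := hl r1 g1 hp1 hK1 hW1
    refine ⟨0, ![g0, g1], ![e0, e1], ![r0, r1], ?_, ?_, ?_, Or.inl rfl⟩
    · intro i
      fin_cases i
      · exact h0
      · exact h1
    · intro i j hij
      fin_cases i <;> fin_cases j
      · exact absurd rfl hij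
      · exact hn1
      · exact hn2
      · exact absurd rfl hij
    · intro h e' r' hh he
      exact ⟨0, hall h e' r' hh he⟩
  · push Not at hcase
    let S : Finset ℕ := (Finset.range (l + 1)).filter
      (fun e => 2 ≤ e ∧ ∃ (h : Pol k 2) (r : ℤ), ED W K l h e r)
    have hmem : ∀ (h : Pol k 2) (e : ℕ) (r : ℤ), ED W K l h e r → 2 ≤ e → e ∈ S := by
      intro h e r hh he
      have hr := ed_pos hC hh
      have h1 : (e : ℤ) ≤ l := by
        rw [← hh.er]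
        nlinarith
      refine Finset.mem_filter.2 ⟨Finset.mem_range.2 ?_, he, h, r, hh⟩
      omega
    have hex : ∀ e ∈ S, ∃ (h : Pol k 2) (r : ℤ), ED W K l h e r :=
      fun e he => (Finset.mem_filter.1 he).2.2
    have hge : ∀ e ∈ S, 2 ≤ e := fun e he => (Finset.mem_filter.1 he).2.1
    have hcard : 2 ≤ S.card := by
      obtain ⟨h, r, hp, hK, hr⟩ := exists_prime hFAC hW.toGr hC
      obtain ⟨e, he⟩ := hl r h hp hK hr
      obtain ⟨h1, e1, r1, hh1, he1, -⟩ := hcase h e r he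
      obtain ⟨h2, e2, r2, hh2, he2, hn⟩ := hcase h1 e1 r1 hh1
      have hco := ed_cop hh1 hh2 hn
      have hne : e1 ≠ e2 := by
        rintro rfl
        rw [Nat.coprime_self] at hco
        omega
      have hsub : ({e1, e2} : Finset ℕ) ⊆ S := by
        intro x hx
        rcases Finset.mem_insert.1 hx with rfl | hx
        · exact hmem _ _ _ hh1 he1
        · rw [Finset.mem_singleton.1 hx]
          exact hmem _ _ _ hh2 he2
      have := Finset.card_le_card hsub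
      rwa [Finset.card_pair hne] at this
    obtain ⟨n, hn⟩ : ∃ n, S.card = n + 2 := ⟨S.card - 2, by omega⟩
    let e : Fin (n + 2) → ℕ := fun i => S.orderEmbOfFin hn i
    have heS : ∀ i, e i ∈ S := fun i => Finset.orderEmbOfFin_mem S hn i
    choose g r hgr using fun i => hex (e i) (heS i)
    refine ⟨n, g, e, r, hgr, ?_, ?_, Or.inr fun i => hge _ (heS i)⟩
    · intro i j hij hd
      apply hij
      have h1 := wt_eq_of_dvd hW.toGr (hgr i).pr (hgr j).pr hd (hgr i).hW (hgr j).hW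
      have h2 : (e i : ℤ) * r i = e j * r i := by
        rw [(hgr i).er, h1, (hgr j).er]
      have h3 := mul_right_cancel₀ (ed_pos hC (hgr i)).ne' h2
      have h4 : e i = e j := by exact_mod_cast h3
      exact (S.orderEmbOfFin hn).injective h4
    · intro h e' r' hh he'
      have h1 := hmem h e' r' hh he'
      have h2 : e' ∈ Set.range (S.orderEmbOfFin hn) := by
        rw [Finset.range_orderEmbOfFin]
        exact h1
      obtain ⟨i, hi⟩ := h2
      refine ⟨i, ?_⟩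
      by_contra hcon
      have hco := ed_cop (hgr i) hh hcon
      have h3 : e i = e' := hi
      rw [h3, Nat.coprime_self] at hco
      omega

theorem pf_CSX (hELL : T_ELL) (hCLI : T_CLI) (hND : T_ND) (hWTK : T_WTK) (hFAC : T_FAC) :
    T_CSX := by
  intro k _ _ _ W H y w K hy hC
  have hW := hy.toGr
  obtain ⟨l, hlp, hl⟩ := hELL k W H y w K hy hC
  have hl' : ∀ (r : ℤ) (h : Pol k 2), Prime h → h ∈ K → h ∈ W r → ∃ e : ℕ, ED W K l h e r := by
    intro r h hp hK hr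
    obtain ⟨e, he, her, hco, hdv, -⟩ := hl r h hp hK hr
    exact ⟨e, hp, hK, hr, he, her, hco, hdv⟩
  obtain ⟨n, g, e, r, hF⟩ := exists_fam hND hFAC hy.toPGr hC hl'
  have hrp : ∀ i, 0 < r i := fun i => ed_pos hC (hF.ed i)
  let ω : Fin (n + 2) → ℕ := fun i => (r i).toNat
  have hω : ∀ i, (ω i : ℤ) = r i := fun i => Int.toNat_of_nonneg (hrp i).le
  have hot : ∀ (r' : ℤ) (h : Pol k 2), Prime h → h ∈ K → h ∈ W r' → (∃ i, g i ∣ h) ∨
      ∃ a b : k, a ≠ 0 ∧ b ≠ 0 ∧ h = C a * g 0 ^ e 0 + C b * g 1 ^ e 1 := by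
    intro r' h hp hK hr
    obtain ⟨e', he'⟩ := hl' r' h hp hK hr
    by_cases h2 : 2 ≤ e'
    · exact Or.inl (hF.sp h e' r' he' h2)
    have h1 : e' = 1 := by have := he'.ep; omega
    have h3 : r' = l := by
      have := he'.er
      rw [h1] at this
      simpa using this
    obtain ⟨a, b, hab⟩ := ed_span hCLI hFAC hy hC (hF.ed 0) (hF.ed 1)
      (hF.na 0 1 (by simp)) hK (h3 ▸ hr)
    by_cases ha : a = 0
    · left
      refine ⟨1, ?_⟩
      rw [hab, ha, C_0, zero_mul, zero_add]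
      exact Dvd.dvd.mul_left (dvd_pow_self _ (hF.ed 1).ep.ne') _
    by_cases hb : b = 0
    · left
      refine ⟨0, ?_⟩
      rw [hab, hb, C_0, zero_mul, add_zero]
      exact Dvd.dvd.mul_left (dvd_pow_self _ (hF.ed 0).ep.ne') _
    exact Or.inr ⟨a, b, ha, hb, hab⟩
  refine ⟨n, g, e, ω, l, hC, fun i => (hF.ed i).pr, fun i => (hF.ed i).hK, ?_,
    fun i => (hF.ed i).ep, ?_, hlp, hF.na, ?_, ?_, ?_, hot, ?_, hF.al⟩
  · intro i
    rw [hω i]
    exact (hF.ed i).hW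
  · intro i
    have := (hF.ed i).er
    rw [← hω i] at this
    exact_mod_cast this
  · intro i j hij
    exact ed_cop (hF.ed i) (hF.ed j) (hF.na i j hij)
  · -- Bezout
    obtain ⟨d, hd⟩ : ∃ d : ℤ, Ideal.span (Set.range fun i => (ω i : ℤ)) = Ideal.span {d} :=
      (IsPrincipalIdealRing.principal (Ideal.span (Set.range fun i => (ω i : ℤ)))).principal
    have hdω : ∀ i, d ∣ (ω i : ℤ) := by
      intro i
      rw [← Ideal.mem_span_singleton, ← hd]
      exact Ideal.subset_span ⟨i, rfl⟩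
    have hdl : d ∣ (l : ℤ) := by
      rw [← (hF.ed 0).er, ← hω 0]
      exact Dvd.dvd.mul_left (hdω 0) _
    have hdp : ∀ (r' : ℤ) (h : Pol k 2), Prime h → h ∈ K → h ∈ W r' → d ∣ r' := by
      intro r' h hp hK hr
      rcases hot r' h hp hK hr with ⟨i, hi⟩ | ⟨a, b, -, -, hab⟩
      · rw [← wt_eq_of_dvd hW (hF.ed i).pr hp hi (hF.ed i).hW hr, ← hω i]
        exact hdω i
      · have h1 : h ∈ W l := by
          rw [hab, ← smul_eq_C_mul, ← smul_eq_C_mul]
          exact (W l).add_mem ((W l).smul_mem _ (pow_mem_l hW (hF.ed 0)))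
            ((W l).smul_mem _ (pow_mem_l hW (hF.ed 1)))
        rw [wt_uniq hW hr h1 hp.ne_zero]
        exact hdl
    have hu : IsUnit d := by
      refine hWTK k W H y w K hy hC d ?_
      intro m f hfK hfW hf0
      refine hind hFAC hW hC.fc (fun _ m => d ∣ m) (fun _ _ => dvd_zero _) ?_ f hf0 hfK m hfW
      intro p a b c hp hpK hpW hc
      exact dvd_add (hdp b p hp hpK hpW) hc
    have htop : (1 : ℤ) ∈ Ideal.span (Set.range fun i => (ω i : ℤ)) := by
      rw [hd, Ideal.span_singleton_eq_top.2 hu]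
      exact Submodule.mem_top
    exact Ideal.mem_span_range_iff_exists_fun.1 htop
  · intro i j t hij
    exact ed_span hCLI hFAC hy hC (hF.ed i) (hF.ed j) (hF.na i j hij)
      (K.pow_mem (hF.ed t).hK _) (pow_mem_l hW (hF.ed t))
  · intro f hf
    have hgA : ∀ i, g i ∈ Algebra.adjoin k (Set.range g) := fun i =>
      Algebra.subset_adjoin ⟨i, rfl⟩
    have hCA : ∀ c : k, (C c : Pol k 2) ∈ Algebra.adjoin k (Set.range g) := fun c =>
      (Algebra.adjoin k (Set.range g)).algebraMap_mem c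
    have hhom : ∀ (m : ℤ) (u : Pol k 2), u ∈ K → u ∈ W m →
        u ∈ Algebra.adjoin k (Set.range g) := by
      intro m u huK huW
      by_cases hu0 : u = 0
      · rw [hu0]; exact Subalgebra.zero_mem _
      refine hind hFAC hW hC.fc (fun a _ => a ∈ Algebra.adjoin k (Set.range g))
        (fun c _ => hCA c) ?_ u hu0 huK m huW
      intro p a b c hp hpK hpW ha
      refine Subalgebra.mul_mem _ ?_ ha
      rcases hot b p hp hpK hpW with ⟨i, hi⟩ | ⟨a', b', -, -, hab⟩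
      · obtain ⟨c', -, hc'⟩ := prime_dvd_prime (hF.ed i).pr hp hi
        rw [hc']
        exact Subalgebra.mul_mem _ (hCA c') (hgA i)
      · rw [hab]
        exact Subalgebra.add_mem _ (Subalgebra.mul_mem _ (hCA a') (Subalgebra.pow_mem _ (hgA 0) _))
          (Subalgebra.mul_mem _ (hCA b') (Subalgebra.pow_mem _ (hgA 1) _))
    rw [← cmp_sum hW f, Finsupp.sum]
    exact Subalgebra.sum_mem _ fun m _ => hhom m _ (hC.gr hW f hf m) (cmp_mem hW f m)

end Pool.Agent.H10.SYA
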