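import Pool.Agent.H19.SYA.Defs

/-!
# Residue field of a prime and extension of derivations
-/

set_option autoImplicit false

namespace Pool.Agent.H10.SYA

open MvPolynomial Pool.Agent.H2.ST Pool.Agent.H15.TG Pool.Agent.H19.SYA

/-- the residue field of a prime element -/
theorem exists_res {k : Type} [Field k] {g : Pol k 2} (hg : Prime g) :
    ∃ (L : Type) (_ : Field L) (_ : Algebra k L) (Θ : Pol k 2 →ₐ[k] L),
      (∀ F, Θ F = 0 ↔ g ∣ F) ∧ ∀ x : L, ∃ F G, Θ G ≠ 0 ∧ x * Θ G = Θ F := by
  have hI : (Ideal.span {g} : Ideal (Pol k 2)).IsPrime :=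
    (Ideal.span_singleton_prime hg.ne_zero).2 hg
  let B : Type := Pol k 2 ⧸ (Ideal.span {g} : Ideal (Pol k 2))
  have : IsDomain B := Ideal.Quotient.isDomain _
  let L : Type := FractionRing B
  let Θ : Pol k 2 →ₐ[k] L :=
    (IsScalarTower.toAlgHom k B L).comp (Ideal.Quotient.mkₐ k (Ideal.span {g}))
  have hΘ : ∀ F, Θ F = algebraMap B L (Ideal.Quotient.mk (Ideal.span {g}) F) := fun F => rfl
  have hinj : Function.Injective (algebraMap B L) := IsFractionRing.injective B L
  have h0 : ∀ F, Θ F = 0 ↔ g ∣ F := by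
    intro F
    rw [hΘ, map_eq_zero_iff _ hinj, Ideal.Quotient.eq_zero_iff_mem, Ideal.mem_span_singleton]
  refine ⟨L, inferInstance, inferInstance, Θ, h0, ?_⟩
  intro x
  obtain ⟨a, b, hb, hx⟩ := IsFractionRing.div_surjective (A := B) x
  obtain ⟨F, rfl⟩ := Ideal.Quotient.mk_surjective a
  obtain ⟨G, rfl⟩ := Ideal.Quotient.mk_surjective b
  have hG : Θ G ≠ 0 := by
    rw [hΘ, Ne, map_eq_zero_iff _ hinj]
    exact nonZeroDivisors.ne_zero hb
  refine ⟨F, G, hG, ?_⟩
  rw [← hx, hΘ, hΘ]
  exact div_mul_cancel₀ _ hG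

/-- extension of a derivation preserving the kernel -/
theorem exists_der {k A L : Type} [Field k] [CommRing A] [Algebra k A] [Field L] [Algebra k L]
    (Θ : A →ₐ[k] L) (hfr : ∀ x : L, ∃ F G, Θ G ≠ 0 ∧ x * Θ G = Θ F) (D : Derivation k A A)
    (hD : ∀ F, Θ F = 0 → Θ (D F) = 0) : ∃ E : Derivation k L L, ∀ F, E (Θ F) = Θ (D F) := by
  classical
  choose nu de hde hnd using hfr
  have hD2 : ∀ a b : A, Θ (D (a * b)) = Θ a * Θ (D b) + Θ b * Θ (D a) := by
    intro a b
    rw [Derivation.leibniz, smul_eq_mul, smul_eq_mul, map_add, map_mul, map_mul]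
  let e : L → L := fun x => (Θ (D (nu x)) - x * Θ (D (de x))) / Θ (de x)
  have he : ∀ (x : L) (F G : A), Θ G ≠ 0 → x * Θ G = Θ F →
      e x * Θ G = Θ (D F) - x * Θ (D G) := by
    intro x F G hG hx
    have h1 : Θ (nu x * G - F * de x) = 0 := by
      rw [map_sub, map_mul, map_mul, ← hx, ← hnd x]; ring
    have h2 := hD _ h1
    rw [map_sub, map_sub, hD2, hD2, ← hx, ← hnd x] at h2
    show (Θ (D (nu x)) - x * Θ (D (de x))) / Θ (de x) * Θ G = _
    rw [div_mul_eq_mul_div, div_eq_iff (hde x)]
    linear_combination h2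
  have hadd : ∀ x y, e (x + y) = e x + e y := by
    intro x y
    have hG : Θ (de x * de y) ≠ 0 := by rw [map_mul]; exact mul_ne_zero (hde x) (hde y)
    have h1 := he (x + y) (nu x * de y + nu y * de x) (de x * de y) hG (by
      rw [map_mul, map_add, map_mul, map_mul, ← hnd x, ← hnd y]; ring)
    have hx := he x (nu x) (de x) (hde x) (hnd x)
    have hy := he y (nu y) (de y) (hde y) (hnd y)
    apply mul_right_cancel₀ hG
    rw [h1, map_add, map_add, hD2, hD2, hD2, map_mul, ← hnd x, ← hnd y]
    linear_combination (-Θ (de y)) * hx + (-Θ (de x)) * hy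
  have hmul : ∀ x y, e (x * y) = x * e y + y * e x := by
    intro x y
    have hG : Θ (de x * de y) ≠ 0 := by rw [map_mul]; exact mul_ne_zero (hde x) (hde y)
    have h1 := he (x * y) (nu x * nu y) (de x * de y) hG (by
      rw [map_mul, map_mul, ← hnd x, ← hnd y]; ring)
    have hx := he x (nu x) (de x) (hde x) (hnd x)
    have hy := he y (nu y) (de y) (hde y) (hnd y)
    apply mul_right_cancel₀ hG
    rw [h1, hD2, hD2, map_mul, ← hnd x, ← hnd y]
    linear_combination (-(y * Θ (de y))) * hx + (-(x * Θ (de x))) * hy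
  have hext : ∀ F, e (Θ F) = Θ (D F) := by
    intro F
    have h1 := he (Θ F) F 1 (by rw [map_one]; exact one_ne_zero) (by rw [map_one, mul_one])
    rw [Derivation.map_one_eq_zero, map_zero, mul_zero, sub_zero, map_one, mul_one] at h1
    exact h1
  have hsm : ∀ (c : k) (x : L), e (c • x) = c • e x := by
    intro c x
    have h1 : c • x = Θ (algebraMap k A c) * x := by
      rw [Algebra.smul_def, AlgHom.commutes]
    rw [h1, hmul, hext, Derivation.map_algebraMap, map_zero, mul_zero, add_zero,
      AlgHom.commutes, ← Algebra.smul_def]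
  let E0 : L →ₗ[k] L := { toFun := e, map_add' := hadd, map_smul' := hsm }
  refine ⟨Derivation.mk' E0 ?_, hext⟩
  intro x y
  exact hmul x y

/-- chain rule -/
theorem chain {k σ L : Type} [Field k] [Fintype σ] [DecidableEq σ] [Field L] [Algebra k L]
    (E : Derivation k L L) (v : σ → L) (P : MvPolynomial σ k) :
    E (aeval v P) = ∑ i, aeval v (pderiv i P) * E (v i) := by
  induction P using MvPolynomial.induction_on with
  | C a =>
    rw [algHom_C, Derivation.map_algebraMap]
    symm
    refine Finset.sum_eq_zero fun i _ => ?_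
    rw [pderiv_C, map_zero, zero_mul]
  | add p q hp hq =>
    rw [map_add, map_add, hp, hq, ← Finset.sum_add_distrib]
    refine Finset.sum_congr rfl fun i _ => ?_
    rw [map_add, map_add]; ring
  | mul_X p j hp =>
    rw [map_mul, aeval_X, Derivation.leibniz, hp, smul_eq_mul, smul_eq_mul]
    have h1 : ∀ i, aeval v (pderiv i (p * X j)) * E (v i) =
        v j * (aeval v (pderiv i p) * E (v i)) + if i = j then aeval v p * E (v j) else 0 := by
      intro i
      rw [Derivation.leibniz, smul_eq_mul, smul_eq_mul, pderiv_X, map_add, map_mul, map_mul,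
        aeval_X]
      by_cases hij : i = j
      · subst hij
        rw [if_pos rfl, Pi.single_eq_same, map_one]; ring
      · rw [if_neg hij, Pi.single_eq_of_ne (Ne.symm hij), map_zero]; ring
    rw [Finset.sum_congr rfl fun i _ => h1 i, Finset.sum_add_distrib, ← Finset.mul_sum,
      Finset.sum_ite_eq' Finset.univ j, if_pos (Finset.mem_univ _)]
    ring

end Pool.Agent.H10.SYA
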